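import Pool.Agent.Lib.MP_e1f7e2_al.FA.Iface

/-!
# STR: the structure of strict neighbours (module of project FA, section 3 (STR) of Paper.md)
-/

set_option autoImplicit false

namespace Pool.Agent.Lib.MP_e1f7e2_al.FA.H39

variable {K : Type*} [Field K] {w : Fin 3 → ℝ}

theorem lin_of_mem_aux (F : Facts K w) (f g u v : A K 3) (hfg : f * g ≠ g * f)
    (a b c : K) (ha : a ≠ 0) (hf : f = a • u + b • v + c • 1) (hg : g ∈ lin u v) :
    lin f g = lin u v := by
  have h1 : lin f v = lin u v := by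
    rw [hf]
    exact F.s.lel u v a b c ha
  rw [← h1, F.s.linmem] at hg
  obtain ⟨x, y, z, hg⟩ := hg
  by_cases hy : y = 0
  · exfalso
    apply hfg
    rw [hg, hy]
    simp [mul_add, add_mul]
  · rw [← h1, F.s.lcomm f g, F.s.lcomm f v, hg]
    have h2 := F.s.lel v f y x z hy
    rw [← h2]
    congr 1
    abel

theorem lin_of_mem (F : Facts K w) (f g u v : A K 3) (hfg : f * g ≠ g * f)
    (hf : f ∈ lin u v) (hg : g ∈ lin u v) : lin f g = lin u v := by
  obtain ⟨a, b, c, hf'⟩ := (F.s.linmem _ _ _).1 hf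
  by_cases ha : a = 0
  · by_cases hb : b = 0
    · exfalso
      apply hfg
      rw [hf', ha, hb]
      simp
    · rw [F.s.lcomm u v] at hg ⊢
      refine lin_of_mem_aux F f g v u hfg b a c hb ?_ hg
      rw [hf']
      abel
  · exact lin_of_mem_aux F f g u v hfg a b c ha hf' hg

theorem compl (F : Facts K w) (l' u v : A K 3) (hl : l' ∈ lin u v) (hp : 0 < dg w l') :
    ∃ m0, lin l' m0 = lin u v := by
  obtain ⟨a, b, c, hl'⟩ := (F.s.linmem _ _ _).1 hl
  by_cases ha : a = 0
  · by_cases hb : b = 0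
    · exfalso
      rw [hl', ha, hb, zero_smul, zero_smul, zero_add, zero_add, F.d.const] at hp
      exact lt_irrefl _ hp
    · refine ⟨u, ?_⟩
      rw [F.s.lcomm u v, ← F.s.lel v u b a c hb, hl']
      congr 1
      abel
  · exact ⟨v, by rw [hl', F.s.lel u v a b c ha]⟩

/-- the intersection of two planes of a vertex -/
theorem inter_aux (F : Facts K w) (f g u v l : A K 3) (a1 b1 c1 d1 : K) (hc : c1 ≠ 0)
    (hf : f = a1 • u + b1 • v + c1 • l + d1 • 1) (hg : g ∈ sp u v l) :
    ∃ l' c0 : A K 3, lin f g = lin l' c0 ∧ l' ∈ lin u v ∧ c0 - l ∈ lin u v := by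
  obtain ⟨a2, b2, c2, d2, hg'⟩ := (F.s.spmem _ _ _ _).1 hg
  have hc' : c1⁻¹ ≠ 0 := inv_ne_zero hc
  have hcc : c1⁻¹ * c1 = 1 := inv_mul_cancel₀ hc
  refine ⟨g - c2 • (c1⁻¹ • f), c1⁻¹ • f, ?_, ?_, ?_⟩
  · have h1 : lin (c1⁻¹ • f) g = lin f g := by
      have := F.s.lel f g c1⁻¹ 0 0 hc'
      simpa using this
    have h2 : lin (g - c2 • (c1⁻¹ • f)) (c1⁻¹ • f) = lin g (c1⁻¹ • f) := by
      have := F.s.lel g (c1⁻¹ • f) 1 (-c2) 0 one_ne_zero
      rw [← this]
      congr 1
      simp [sub_eq_add_neg]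
    rw [h2, F.s.lcomm g, h1]
  · rw [F.s.linmem]
    refine ⟨a2 - c2 * (c1⁻¹ * a1), b2 - c2 * (c1⁻¹ * b1), d2 - c2 * (c1⁻¹ * d1), ?_⟩
    rw [hg', hf]
    simp only [smul_add, smul_smul, sub_smul, hcc, one_smul]
    have : c2 * (c1⁻¹ * c1) = c2 := by rw [hcc, mul_one]
    abel
  · rw [F.s.linmem]
    refine ⟨c1⁻¹ * a1, c1⁻¹ * b1, c1⁻¹ * d1, ?_⟩
    rw [hf]
    simp only [smul_add, smul_smul, hcc, one_smul]
    abel

theorem inter (F : Facts K w) (f g h u v l : A K 3) (hfr : Fr f g h)
    (hsp : sp u v l = sp f g h) :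
    lin f g = lin u v ∨
      ∃ l' c0 : A K 3, lin f g = lin l' c0 ∧ l' ∈ lin u v ∧ c0 - l ∈ lin u v := by
  have hf : f ∈ sp u v l := by
    rw [hsp, F.s.spmem]
    exact ⟨1, 0, 0, 0, by simp⟩
  have hg : g ∈ sp u v l := by
    rw [hsp, F.s.spmem]
    exact ⟨0, 1, 0, 0, by simp⟩
  obtain ⟨a1, b1, c1, d1, hf'⟩ := (F.s.spmem _ _ _ _).1 hf
  obtain ⟨a2, b2, c2, d2, hg'⟩ := (F.s.spmem _ _ _ _).1 hg
  by_cases h1 : c1 = 0
  · by_cases h2 : c2 = 0
    · left
      refine lin_of_mem F f g u v (F.f.nc f g h hfr) ?_ ?_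
      · rw [F.s.linmem]
        exact ⟨a1, b1, d1, by rw [hf', h1]; simp⟩
      · rw [F.s.linmem]
        exact ⟨a2, b2, d2, by rw [hg', h2]; simp⟩
    · right
      obtain ⟨l', c0, h3, h4, h5⟩ := inter_aux F g f u v l a2 b2 c2 d2 h2 hg' hf
      exact ⟨l', c0, by rw [F.s.lcomm f g, h3], h4, h5⟩
  · right
    exact inter_aux F f g u v l a1 b1 c1 d1 h1 hf' hg

/-- change of the third element -/
theorem rep (F : Facts K w) (f g h x q : A K 3) (hx : Fr f g x) (hsp : sp f g x = sp f g h)
    (hq : q ∈ B f g) : ∃ q' ∈ B f g, sp f g (h + q) = sp f g (x + q') := by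
  have hx' : x ∈ sp f g h := by
    rw [← hsp, F.s.spmem]
    exact ⟨0, 0, 1, 0, by simp⟩
  obtain ⟨p1, p2, p3, p4, he⟩ := (F.s.spmem _ _ _ _).1 hx'
  have hp3 : p3 ≠ 0 := by
    intro h0
    have h1 : (-p1) • f + (-p2) • g + (1 : K) • x + (-p4) • (1 : A K 3) = 0 := by
      rw [he, h0]
      simp only [zero_smul, add_zero, neg_smul, one_smul]
      abel
    have := (F.f.indep f g x _ _ _ _ hx h1).2.2.1
    exact one_ne_zero this
  refine ⟨p3 • q, (B f g).smul_mem hq p3, ?_⟩
  have h2 := F.s.sel f g (h + q) (p1 • f + p2 • g + p4 • 1) p3 hp3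
    ((F.s.linmem _ _ _).2 ⟨p1, p2, p4, rfl⟩)
  rw [← h2, he, smul_add]
  congr 1
  abel

theorem mem_lin_left (F : Facts K w) (f g : A K 3) : f ∈ lin f g := by
  rw [F.s.linmem]
  exact ⟨1, 0, 0, by simp⟩

theorem mem_lin_right (F : Facts K w) (f g : A K 3) : g ∈ lin f g := by
  rw [F.s.linmem]
  exact ⟨0, 1, 0, by simp⟩

/-- a minimal third element gives the minimal degree among the neighbours via the plane -/
theorem vd_min (F : Facts K w) (f g t q : A K 3) (ht : Fr f g t)
    (hm : ∀ q ∈ B f g, dg w t ≤ dg w (t + q)) (hq : q ∈ B f g) :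
    vd w (sp f g t) ≤ vd w (sp f g (t + q)) := by
  have h1 : Fr f g (t + q) := by
    have := F.f.el f g t q 1 ht one_ne_zero hq
    simpa using this
  obtain ⟨f', g', h', hl, hd, hfr, -, ho3, hsp⟩ := F.v.ex f g (t + q) h1
  rw [← hsp, F.v.eq f' g' h' hfr ho3, ← F.s.slin f' g' f g t hl]
  have h2 : Fr f' g' t := F.f.frlin f g f' g' t ht hl.symm
  refine (F.v.le f' g' t h2).trans ?_
  have h3 : dg w t ≤ dg w h' := by
    have h4 := hm (q + (h' - (t + q))) ((B f g).add_mem hq (F.s.linB _ _ _ hd))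
    have h5 : t + (q + (h' - (t + q))) = h' := by abel
    rwa [h5] at h4
  linarith

/-- the construction of `t` -/
theorem exists_t (F : Facts K w) (ν : ℝ) (V' : Submodule K (A K 3)) (l' c x q : A K 3)
    (hA : HA K w ν) (hx : Fr l' c x) (hq : q ∈ B l' c) (hV' : V' = sp l' c (x + q))
    (hred : Red w V') (hν : vd w V' < ν) :
    ∃ t : A K 3, Fr l' c t ∧ Red w (sp l' c t) ∧ vd w (sp l' c t) ≤ vd w V' ∧ Mn w t c l' ∧
      x - t ∈ B c l' := by
  obtain ⟨q2, hq2, hmn⟩ := F.o.mnex c l' (x + q)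
  have hB : B c l' = B l' c := F.s.bcomm _ _
  have hq2' : q2 ∈ B l' c := by rw [← hB]; exact hq2
  have hqq : q + q2 ∈ B l' c := (B l' c).add_mem hq hq2'
  have e1 : x + q + q2 = x + (q + q2) := by abel
  have hft : Fr l' c (x + q + q2) := by
    have := F.f.el l' c x (q + q2) 1 hx one_ne_zero hqq
    rw [one_smul] at this
    rw [e1]
    exact this
  refine ⟨x + q + q2, hft, ?_, ?_, hmn, ?_⟩
  · refine hA V' _ hν hred ?_
    rw [hV', e1]
    exact F.f.adj' l' c x q (q + q2) hx hq hqq
  · have h1 := vd_min F l' c (x + q + q2) (-q2) hft ?_ ((B l' c).neg_mem hq2')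
    · rw [hV']
      have e2 : x + q + q2 + -q2 = x + q := by abel
      rwa [e2] at h1
    · intro r hr
      exact hmn r (by rw [hB]; exact hr)
  · rw [hB]
    have e3 : x - (x + q + q2) = -(q + q2) := by abel
    rw [e3]
    exact (B l' c).neg_mem hqq

theorem red_cases (V : Submodule K (A K 3)) (h : Red w V) :
    vd w V ≤ sg w ∨ ∃ V', Adj V V' ∧ vd w V' < vd w V ∧ Red w V' := by
  cases h with
  | base _ h1 h2 => exact Or.inl h2
  | step _ V' h1 h2 h3 => exact Or.inr ⟨V', h1, h2, h3⟩

theorem str (K : Type*) [Field K] (w : Fin 3 → ℝ) (F : Facts K w) :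
    StrStatement K w := by
  intro ν u v l hA hfr hor hmn hred hsg hν
  set V := sp u v l with hV
  have hB0 : ∀ q ∈ B u v, dg w l ≤ dg w (l + q) := hmn
  rcases red_cases V hred with hb | ⟨V', hadj, hvd, hred'⟩
  · exact absurd hsg (not_lt.2 hb)
  · obtain ⟨f, g, h, q, hfr', hq, hV1, hV2⟩ := hadj
    rcases inter F f g h u v l hfr' hV1 with hlin | ⟨l', c0, hlin, hl', hc0⟩
    · -- the plane of the move is the plane `u, v`: impossible
      exfalso
      have h1 : sp f g h = sp u v h := F.s.slin f g u v h hlin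
      have h2 : B f g = B u v := F.s.blin f g u v hlin
      obtain ⟨q', hq', h3⟩ := rep F u v h l q hfr (by rw [← h1, ← hV1]) (by rw [← h2]; exact hq)
      have h4 : V' = sp u v (l + q') := by
        rw [hV2, F.s.slin f g u v (h + q) hlin, h3]
      have h5 := vd_min F u v l q' hfr hB0 hq'
      rw [← h4] at h5
      exact absurd hvd (not_lt.2 h5)
    · -- the intersection of the planes
      have hfr1 : Fr l' c0 h := F.f.frlin f g l' c0 h hfr' hlin
      have hl'pos : 0 < dg w l' := F.f.pos _ _ _ hfr1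
      obtain ⟨m0, hm0⟩ := compl F l' u v hl' hl'pos
      have hfr2 : Fr l' m0 l := F.f.frlin u v l' m0 l hfr hm0.symm
      obtain ⟨a, hor', hlin'⟩ := F.o.exl l' m0 (F.f.nc _ _ _ hfr2)
      set m' := m0 + a • l' with hm'
      have hlm : lin l' m' = lin u v := by rw [hlin', hm0]
      have hBm : B l' m' = B u v := F.s.blin _ _ _ _ hlm
      have hfr3 : Fr l' m' l := F.f.frlin u v l' m' l hfr hlm.symm
      have hc0' : c0 - l ∈ lin l' m' := by rw [hlm]; exact hc0
      obtain ⟨x, y, z, hxyz⟩ := (F.s.linmem _ _ _).1 hc0'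
      have hc0e : c0 = (1 : K) • (l + y • m') + x • l' + z • 1 := by
        have : c0 = (c0 - l) + l := by abel
        rw [this, hxyz]
        rw [one_smul]
        abel
      have hlinc : lin l' (l + y • m') = lin l' c0 := by
        rw [F.s.lcomm l' (l + y • m'), F.s.lcomm l' c0, hc0e,
          F.s.lel (l + y • m') l' 1 x z one_ne_zero]
      set c := l + y • m' with hc
      have hlinfg : lin f g = lin l' c := by rw [hlin, hlinc]
      have hm'B : m' ∈ B u v := by
        rw [← hBm]
        exact F.s.bg _ _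
      have hfrc : Fr l' m' c := by
        have := F.f.el l' m' l (y • m') 1 hfr3 one_ne_zero
          ((B l' m').smul_mem (F.s.bg _ _) y)
        rw [one_smul] at this
        exact this
      have hspl : sp l' m' l = V := F.s.slin l' m' u v l hlm
      have hspc : sp l' m' c = V := by
        have := F.s.sel l' m' l (y • m') 1 one_ne_zero
          ((lin l' m').smul_mem y (mem_lin_right F l' m'))
        rw [one_smul] at this
        rw [← hspl, ← this]
      have hor3l : Or3 w l' m' l := F.o.mn3 l' m' l hfr3 hor' (fun r hr =>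
        hB0 r (by rw [← hBm]; exact F.s.linB _ _ _ hr))
      have hvdV : vd w V = dg w l' + dg w m' + dg w l := by
        rw [← hspl]
        exact F.v.eq _ _ _ hfr3 hor3l
      have hV'2 : V' = sp l' c (h + q) := by
        rw [hV2]
        exact F.s.slin f g l' c (h + q) hlinfg
      have hqB : q ∈ B l' c := by
        rw [← F.s.blin _ _ _ _ hlinfg]
        exact hq
      have hVh : V = sp l' c h := by
        rw [hV1]
        exact F.s.slin f g l' c h hlinfg
      have hν' : vd w V' < ν := lt_of_lt_of_le hvd hν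
      by_cases hcase : y = 0 ∨ dg w m' ≤ dg w l
      · -- case I
        have hcl : dg w c = dg w l := by
          refine le_antisymm ?_ ?_
          · rcases hcase with h0 | h0
            · rw [hc, h0, zero_smul, add_zero]
            · refine (F.d.add_le _ _).trans (max_le le_rfl ?_)
              exact (F.d.smul_le _ _).trans h0
          · exact hB0 _ ((B u v).smul_mem hm'B y)
        have hmnc : Mn w c u v := by
          intro r hr
          rw [hcl, hc, add_assoc]
          exact hB0 _ ((B u v).add_mem ((B u v).smul_mem hm'B y) hr)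
        have hor3c : Or3 w l' m' c := F.o.mn3 l' m' c hfrc hor' (fun r hr =>
          hmnc r (by rw [← hBm]; exact F.s.linB _ _ _ hr))
        have hfrx : Fr l' c m' := F.f.p23 _ _ _ hfrc
        have hspx : sp l' c m' = V := by rw [← hspc]; exact F.s.scomm' _ _ _
        obtain ⟨q', hq', h3⟩ := rep F l' c h m' q hfrx (by rw [hspx, hVh]) hqB
        obtain ⟨t, ht1, ht2, ht3, ht4, ht5⟩ := exists_t F ν V' l' c m' q' hA hfrx hq'
          (by rw [hV'2, h3]) hred' hν'
        have hlt : vd w (sp l' c t) < vd w V := lt_of_le_of_lt ht3 hvd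
        refine ⟨l', m', c, t, hfrc, hor', hlm, hspc, hfr3, hor3l, ht1, ht2, hlt, ht4, Or.inl
          ⟨hmnc, ⟨y, rfl⟩, hcl, hor3c, ht5, ?_⟩⟩
        have hor2 : Or2 w l' c := F.o.or32 _ _ _ (F.o.or3p23 _ _ _ hor3c)
        have hor3t : Or3 w l' c t := F.o.mn3 l' c t ht1 hor2 (fun r hr =>
          ht4 r (by rw [F.s.bcomm]; exact F.s.linB _ _ _ hr))
        have h6 := F.v.eq l' c t ht1 hor3t
        rw [h6, hvdV] at hlt
        linarith
      · -- case II
        push Not at hcase
        obtain ⟨hy, hlt0⟩ := hcase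
        have hcm : dg w c = dg w m' := by
          rw [hc, F.d.add_right, F.d.smul _ _ hy]
          rw [F.d.smul _ _ hy]
          exact hlt0
        have hfrx : Fr l' c l := by
          have h7 : Fr l' l m' := F.f.p23 _ _ _ hfr3
          have h8 := F.f.el l' l m' l y h7 hy (F.s.bg _ _)
          have h9 := F.f.p23 _ _ _ h8
          have e : y • m' + l = c := by rw [hc]; abel
          rwa [e] at h9
        have hspx : sp l' c l = V := by
          have h7 := F.s.sel l' l m' l y hy (mem_lin_right F l' l)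
          have e : y • m' + l = c := by rw [hc]; abel
          rw [e] at h7
          rw [F.s.scomm', h7, ← hspl, F.s.scomm']
        obtain ⟨q', hq', h3⟩ := rep F l' c h l q hfrx (by rw [hspx, hVh]) hqB
        obtain ⟨t, ht1, ht2, ht3, ht4, ht5⟩ := exists_t F ν V' l' c l q' hA hfrx hq'
          (by rw [hV'2, h3]) hred' hν'
        have hlt : vd w (sp l' c t) < vd w V := lt_of_le_of_lt ht3 hvd
        refine ⟨l', m', c, t, hfrc, hor', hlm, hspc, hfr3, hor3l, ht1, ht2, hlt, ht4, Or.inr
          ⟨⟨y, hy, rfl⟩, hlt0, ht5, ?_⟩⟩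
        have hor3x : Or3 w l' c l := by
          intro α β γ δ
          have e : α • l' + β • c + γ • l + δ • (1 : A K 3) =
              α • l' + (β * y) • m' + (β + γ) • l + δ • 1 := by
            rw [hc, smul_add, smul_smul, add_smul]
            abel
          rw [e]
          obtain ⟨o1, o2, o3⟩ := hor3l α (β * y) (β + γ) δ
          refine ⟨o1, fun hβ => ?_, fun hγ => ?_⟩
          · rw [hcm]
            exact o2 (mul_ne_zero hβ hy)
          · by_cases hβ : β = 0
            · apply o3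
              rw [hβ, zero_add]
              exact hγ
            · exact hlt0.le.trans (o2 (mul_ne_zero hβ hy))
        have hor2 : Or2 w l' c := F.o.or32 _ _ _ hor3x
        have hor3t : Or3 w l' c t := F.o.mn3 l' c t ht1 hor2 (fun r hr =>
          ht4 r (by rw [F.s.bcomm]; exact F.s.linB _ _ _ hr))
        have h6 := F.v.eq l' c t ht1 hor3t
        have h7 := F.v.eq l' c l hfrx hor3x
        rw [hspx] at h7
        rw [h6, h7] at hlt
        linarith

end Pool.Agent.Lib.MP_e1f7e2_al.FA.H39
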