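import Pool.Agent.Lib.MP_e1f7e2_al.FA.Iface

/-!
# VD: degrees of vertices (module of project FA)
-/

set_option autoImplicit false

namespace Pool.Agent.Lib.MP_e1f7e2_al.FA.H39.VD

variable {K : Type*} [Field K] {w : Fin 3 → ℝ}

theorem wt_mul (w : Fin 3 → ℝ) (u v : Wd 3) : wt w (u * v) = wt w u + wt w v := by
  unfold wt
  rw [FreeMonoid.toList_mul, List.map_append, List.sum_append]

/-- the set in the definition of `vd` -/
def vset (w : Fin 3 → ℝ) (V : Submodule K (A K 3)) : Set ℝ :=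
  {r : ℝ | ∃ f g h : A K 3, Fr f g h ∧ V = sp f g h ∧ r = dg w f + dg w g + dg w h}

theorem vset_bdd (hd : DegFacts K w) (V : Submodule K (A K 3)) : BddBelow (vset w V) := by
  refine ⟨0, ?_⟩
  rintro r ⟨f, g, h, -, -, rfl⟩
  have h1 := hd.nn f
  have h2 := hd.nn g
  have h3 := hd.nn h
  linarith

theorem vd_le (hd : DegFacts K w) (f g h : A K 3) (hfr : Fr f g h) :
    vd w (sp f g h) ≤ dg w f + dg w g + dg w h :=
  csInf_le (vset_bdd hd _) ⟨f, g, h, hfr, rfl, rfl⟩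

/-- the matching of two bases -/
theorem match_bases (hs : SpanFacts K) (hf : FrFacts K w) (F G : Fin 3 → A K 3)
    (hF : Or3 w (F 0) (F 1) (F 2)) (hG : Fr (G 0) (G 1) (G 2))
    (hsp : sp (G 0) (G 1) (G 2) = sp (F 0) (F 1) (F 2)) :
    ∃ σ : Equiv.Perm (Fin 3), ∀ i, dg w (F (σ i)) ≤ dg w (G i) := by
  have hmem : ∀ i, G i ∈ sp (F 0) (F 1) (F 2) := by
    intro i
    rw [← hsp, hs.spmem]
    fin_cases i
    · exact ⟨1, 0, 0, 0, by simp⟩
    · exact ⟨0, 1, 0, 0, by simp⟩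
    · exact ⟨0, 0, 1, 0, by simp⟩
  have h1 : ∀ i, ∃ a b c d : K, G i = a • F 0 + b • F 1 + c • F 2 + d • 1 :=
    fun i => (hs.spmem _ _ _ _).1 (hmem i)
  choose a b c d h using h1
  set M : Matrix (Fin 3) (Fin 3) K := Matrix.of fun i j => ![a i, b i, c i] j with hM
  have hdet : M.det ≠ 0 := by
    intro h0
    obtain ⟨v, hv, hvM⟩ := Matrix.exists_vecMul_eq_zero_iff.2 h0
    apply hv
    have e0 := congrFun hvM 0
    have e1 := congrFun hvM 1
    have e2 := congrFun hvM 2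
    simp only [Matrix.vecMul, dotProduct, Fin.sum_univ_three, hM, Matrix.of_apply,
      Matrix.cons_val_zero, Matrix.cons_val_one, Pi.zero_apply] at e0 e1 e2
    have e2' : v 0 * c 0 + v 1 * c 1 + v 2 * c 2 = 0 := e2
    have key : v 0 • G 0 + v 1 • G 1 + v 2 • G 2 +
        (-(v 0 * d 0 + v 1 * d 1 + v 2 * d 2)) • (1 : A K 3) = 0 := by
      have e : v 0 • G 0 + v 1 • G 1 + v 2 • G 2 +
          (-(v 0 * d 0 + v 1 * d 1 + v 2 * d 2)) • (1 : A K 3) =
          (v 0 * a 0 + v 1 * a 1 + v 2 * a 2) • F 0 + (v 0 * b 0 + v 1 * b 1 + v 2 * b 2) • F 1 +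
            (v 0 * c 0 + v 1 * c 1 + v 2 * c 2) • F 2 := by
        rw [h 0, h 1, h 2]
        simp only [smul_add, smul_smul, add_smul, neg_smul]
        abel
      rw [e, e0, e1, e2']
      simp
    obtain ⟨z0, z1, z2, -⟩ := hf.indep _ _ _ _ _ _ _ hG key
    funext i
    fin_cases i
    · exact z0
    · exact z1
    · exact z2
  rw [Matrix.det_apply] at hdet
  obtain ⟨σ, -, hσ⟩ := Finset.exists_ne_zero_of_sum_ne_zero hdet
  have hprod : ∏ i, M (σ i) i ≠ 0 := by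
    intro h0
    apply hσ
    rw [h0, smul_zero]
  rw [Finset.prod_ne_zero_iff] at hprod
  refine ⟨σ⁻¹, fun i => ?_⟩
  have h2 := hprod (σ⁻¹ i) (Finset.mem_univ _)
  have h3 : σ (σ⁻¹ i) = i := by simp
  rw [h3] at h2
  obtain ⟨o1, o2, o3⟩ := hF (a i) (b i) (c i) (d i)
  rw [← h i] at o1 o2 o3
  generalize σ⁻¹ i = j at h2 ⊢
  fin_cases j
  · exact o1 h2
  · exact o2 h2
  · exact o3 h2

theorem vd_eq (hd : DegFacts K w) (hs : SpanFacts K) (hf : FrFacts K w) (f g h : A K 3)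
    (hfr : Fr f g h) (ho : Or3 w f g h) :
    vd w (sp f g h) = dg w f + dg w g + dg w h := by
  refine le_antisymm (vd_le hd f g h hfr) ?_
  refine le_csInf ⟨_, f, g, h, hfr, rfl, rfl⟩ ?_
  rintro r ⟨f', g', h', hfr', hsp, rfl⟩
  obtain ⟨σ, hσ⟩ := match_bases hs hf ![f, g, h] ![f', g', h'] ho hfr' hsp.symm
  have h1 : ∑ i, dg w ((![f, g, h] : Fin 3 → A K 3) (σ i)) ≤
      ∑ i, dg w ((![f', g', h'] : Fin 3 → A K 3) i) := Finset.sum_le_sum fun i _ => hσ i
  rw [Equiv.sum_comp σ fun i => dg w ((![f, g, h] : Fin 3 → A K 3) i), Fin.sum_univ_three,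
    Fin.sum_univ_three] at h1
  exact h1

theorem vd_ex (hd : DegFacts K w) (hs : SpanFacts K) (hf : FrFacts K w) (ho : OrFacts K w)
    (f g h : A K 3) (hfr : Fr f g h) :
    ∃ f' g' h' : A K 3, lin f' g' = lin f g ∧ h' - h ∈ lin f g ∧
      Fr f' g' h' ∧ Or2 w f' g' ∧ Or3 w f' g' h' ∧ sp f' g' h' = sp f g h := by
  obtain ⟨a, h1, h2⟩ := ho.exl f g (hf.nc f g h hfr)
  obtain ⟨h', hh', hmin⟩ := hd.minim {x : A K 3 | x - h ∈ lin f g}
    ⟨h, by simp⟩
  have hh'' : h' - h ∈ lin f g := hh'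
  have hfr1 : Fr f g h' := by
    have h3 := hf.el f g h (h' - h) 1 hfr one_ne_zero (hs.linB _ _ _ hh'')
    rw [one_smul] at h3
    have e : h + (h' - h) = h' := by abel
    rwa [e] at h3
  have hfr2 : Fr f (g + a • f) h' := hf.frlin f g f (g + a • f) h' hfr1 h2.symm
  refine ⟨f, g + a • f, h', h2, hh'', hfr2, h1, ?_, ?_⟩
  · refine ho.mn3 _ _ _ hfr2 h1 fun r hr => hmin _ ?_
    show h' + r - h ∈ lin f g
    rw [h2] at hr
    have e : h' + r - h = (h' - h) + r := by abel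
    rw [e]
    exact (lin f g).add_mem hh'' hr
  · rw [hs.slin f (g + a • f) f g h' h2]
    have h3 := hs.sel f g h (h' - h) 1 one_ne_zero hh''
    rw [one_smul] at h3
    have e : h + (h' - h) = h' := by abel
    rwa [e] at h3

theorem vd_val (hd : DegFacts K w) (hs : SpanFacts K) (hf : FrFacts K w) (ho : OrFacts K w)
    (V : Submodule K (A K 3)) (hV : Vtx V) : ∃ u : Wd 3, vd w V = wt w u := by
  obtain ⟨f, g, h, hfr, rfl⟩ := hV
  obtain ⟨f', g', h', -, -, hfr', -, ho3, hsp⟩ := vd_ex hd hs hf ho f g h hfr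
  rw [← hsp, vd_eq hd hs hf f' g' h' hfr' ho3]
  obtain ⟨u1, h1⟩ := hd.val f'
  obtain ⟨u2, h2⟩ := hd.val g'
  obtain ⟨u3, h3⟩ := hd.val h'
  exact ⟨u1 * u2 * u3, by rw [h1, h2, h3, wt_mul, wt_mul]⟩

theorem vd_wf (hd : DegFacts K w) (hs : SpanFacts K) (hf : FrFacts K w) (ho : OrFacts K w)
    (P : Submodule K (A K 3) → Prop)
    (hP : ∀ V, Vtx V → (∀ V', Vtx V' → vd w V' < vd w V → P V') → P V) :
    ∀ V, Vtx V → P V := by
  have key : ∀ (n : ℕ) (V : Submodule K (A K 3)), Vtx V →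
      {x : ℝ | x < vd w V ∧ ∃ u : Wd 3, x = wt w u}.ncard ≤ n → P V := by
    have hfin : ∀ V : Submodule K (A K 3),
        {x : ℝ | x < vd w V ∧ ∃ u : Wd 3, x = wt w u}.Finite := fun V =>
      (hd.fin (vd w V)).subset fun x hx => ⟨hx.1.le, hx.2⟩
    intro n
    induction n with
    | zero =>
      intro V hV hn
      refine hP V hV fun V' hV' hlt => ?_
      exfalso
      obtain ⟨u, hu⟩ := vd_val hd hs hf ho V' hV'
      have h1 : {x : ℝ | x < vd w V ∧ ∃ u : Wd 3, x = wt w u} = ∅ := by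
        rw [← Set.ncard_eq_zero (hfin V)]
        omega
      have h2 : vd w V' ∈ {x : ℝ | x < vd w V ∧ ∃ u : Wd 3, x = wt w u} := ⟨hlt, u, hu⟩
      rw [h1] at h2
      exact h2
    | succ n ih =>
      intro V hV hn
      refine hP V hV fun V' hV' hlt => ih V' hV' ?_
      obtain ⟨u, hu⟩ := vd_val hd hs hf ho V' hV'
      have h1 : {x : ℝ | x < vd w V' ∧ ∃ u : Wd 3, x = wt w u} ⊂
          {x : ℝ | x < vd w V ∧ ∃ u : Wd 3, x = wt w u} := by
        have hsub : {x : ℝ | x < vd w V' ∧ ∃ u : Wd 3, x = wt w u} ⊆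
            {x : ℝ | x < vd w V ∧ ∃ u : Wd 3, x = wt w u} :=
          fun x hx => ⟨hx.1.trans hlt, hx.2⟩
        rw [Set.ssubset_iff_of_subset hsub]
        exact ⟨vd w V', ⟨hlt, u, hu⟩, fun hx => lt_irrefl _ hx.1⟩
      have h2 := Set.ncard_lt_ncard h1 (hfin V)
      omega
  intro V hV
  exact key _ V hV le_rfl

theorem vd (K : Type*) [Field K] (w : Fin 3 → ℝ) (hd : DegFacts K w) (hs : SpanFacts K)
    (hf : FrFacts K w) (ho : OrFacts K w) : VdFacts K w where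
  le := vd_le hd
  eq := vd_eq hd hs hf
  ge := by
    rintro V ⟨f, g, h, hfr, rfl⟩
    refine le_csInf ⟨_, f, g, h, hfr, rfl, rfl⟩ ?_
    rintro r ⟨f', g', h', hfr', -, rfl⟩
    exact hf.ge f' g' h' hfr'
  ex := vd_ex hd hs hf ho
  strict := by
    intro f g h h' hfr ho3 hq hlt
    rw [vd_eq hd hs hf f g h hfr ho3]
    have h1 : Fr f g h' := (hf.adjm f g h h' hfr hq).1
    have h2 := vd_le hd f g h' h1
    linarith
  wf := vd_wf hd hs hf ho

end Pool.Agent.Lib.MP_e1f7e2_al.FA.H39.VD
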